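import Pool.Agent.H94.PP.Defs

/-!
helper94 (project MP_28250c_PP, block V): the operators `J` and `X e` on the dual of the space of doubly consistent functions.
-/

set_option autoImplicit false
open Finset

namespace PPh

variable {p m n : ℕ}

theorem isM_mono {α β : Type} {T U : Finset (α × β)} (h : IsM U) (hTU : T ⊆ U) : IsM T :=
  fun e he e' he' h' => h e (hTU he) e' (hTU he') h'

theorem not_isM_insert {T : Finset (Fin m × Fin n)} (h : ¬ IsM T) (e : Fin m × Fin n) : ¬ IsM (insert e T) :=
  fun h' => h (isM_mono h' (Finset.subset_insert e T))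

/-- A set containing two different pairs with a common coordinate is no matching. -/
theorem not_isM_of {T : Finset (Fin m × Fin n)} {e e' : Fin m × Fin n} (he : e ∈ T) (he' : e' ∈ T) (hne : e ≠ e')
    (h : e.1 = e'.1 ∨ e.2 = e'.2) : ¬ IsM T := fun h' => hne (h' e he e' he' h)

theorem isM_insert {T : Finset (Fin m × Fin n)} (h : IsM T) {i : Fin m} {j : Fin n} (hi : Fp T i) (hj : Fh T j) :
    IsM (insert (i, j) T) := by
  intro e he e' he' h'
  rcases Finset.mem_insert.1 he with rfl | he <;> rcases Finset.mem_insert.1 he' with rfl | he'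
  · rfl
  · rcases h' with h' | h'
    · exact absurd h'.symm (hi e' he')
    · exact absurd h'.symm (hj e' he')
  · rcases h' with h' | h'
    · exact absurd h' (hi e he)
    · exact absurd h' (hj e he)
  · exact h e he e' he' h'

theorem card_le_holes {T : Finset (Fin m × Fin n)} (h : IsM T) : T.card ≤ n := by
  have h1 : (T.image Prod.snd).card = T.card :=
    Finset.card_image_of_injOn fun e he e' he' h' => h e he e' he' (Or.inr h')
  rw [← h1]
  exact (Finset.card_le_univ _).trans (by simp)

theorem exists_fp (hmn : n < m) {T : Finset (Fin m × Fin n)} (h : IsM T) : ∃ i, Fp T i := by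
  by_contra hc
  have h1 : (Finset.univ : Finset (Fin m)) ⊆ T.image Prod.fst := by
    intro i _
    by_contra hi
    exact hc ⟨i, fun e he h' => hi (Finset.mem_image.2 ⟨e, he, h'⟩)⟩
  have h2 := Finset.card_le_card h1
  rw [Finset.card_univ, Fintype.card_fin] at h2
  have h3 := Finset.card_image_le (s := T) (f := Prod.fst)
  have h4 := card_le_holes h
  omega

theorem fp_insert {T : Finset (Fin m × Fin n)} {i a : Fin m} {b : Fin n} (h : Fp T i) (hne : i ≠ a) : Fp (insert (a, b) T) i := by
  intro e he
  rcases Finset.mem_insert.1 he with rfl | he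
  · exact fun h' => hne h'.symm
  · exact h e he

theorem fh_insert {T : Finset (Fin m × Fin n)} {j b : Fin n} {a : Fin m} (h : Fh T j) (hne : j ≠ b) : Fh (insert (a, b) T) j := by
  intro e he
  rcases Finset.mem_insert.1 he with rfl | he
  · exact fun h' => hne h'.symm
  · exact h e he

theorem jf_not (f : Finset (Fin m × Fin n) → ZMod p) {T : Finset (Fin m × Fin n)} (h : ¬ IsM T) : jf f T = 0 := by
  unfold jf
  rw [dif_neg fun h' => h h'.1]

theorem jf_row {f : Finset (Fin m × Fin n) → ZMod p} (hf : f ∈ Lam p m n) {T : Finset (Fin m × Fin n)} {i : Fin m}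
    (hi : Fp T i) : jf f T = ∑ j, f (insert (i, j) T) := by
  by_cases hT : IsM T
  · have h : IsM T ∧ ∃ i, Fp T i := ⟨hT, i, hi⟩
    unfold jf
    rw [dif_pos h]
    exact hf.2.1 T hT _ _ h.2.choose_spec hi
  · rw [jf_not f hT, Finset.sum_eq_zero fun j _ => hf.1 _ (not_isM_insert hT _)]

theorem jf_col (hmn : n < m) {f : Finset (Fin m × Fin n) → ZMod p} (hf : f ∈ Lam p m n) {T : Finset (Fin m × Fin n)} {j : Fin n}
    (hj : Fh T j) : jf f T = ∑ i, f (insert (i, j) T) := by
  by_cases hT : IsM T
  · obtain ⟨i, hi⟩ := exists_fp hmn hT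
    rw [jf_row hf hi]
    exact (hf.2.2 T hT i j hi hj).symm
  · rw [jf_not f hT, Finset.sum_eq_zero fun j _ => hf.1 _ (not_isM_insert hT _)]

theorem jf_mem (hmn : n < m) {f : Finset (Fin m × Fin n) → ZMod p} (hf : f ∈ Lam p m n) : jf f ∈ Lam p m n := by
  refine ⟨fun T h => jf_not f h, fun T hT i i' hi hi' => ?_, fun T hT i j hi hj => ?_⟩
  · by_cases hii : i = i'
    · rw [hii]
    have h1 : ∀ j, jf f (insert (i, j) T) = ∑ j', f (insert (i', j') (insert (i, j) T)) := fun j =>
      jf_row hf (fp_insert hi' (Ne.symm hii))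
    have h2 : ∀ j, jf f (insert (i', j) T) = ∑ j', f (insert (i, j') (insert (i', j) T)) := fun j =>
      jf_row hf (fp_insert hi hii)
    simp only [h1, h2]
    rw [Finset.sum_comm]
    refine Finset.sum_congr rfl fun j' _ => Finset.sum_congr rfl fun j _ => ?_
    rw [Finset.insert_comm]
  · rw [← Finset.add_sum_erase _ _ (Finset.mem_univ i), ← Finset.add_sum_erase univ (fun j' => jf f (insert (i, j') T))
      (Finset.mem_univ j)]
    congr 1
    have h1 : ∀ i' ∈ univ.erase i, jf f (insert (i', j) T) = ∑ j' ∈ univ.erase j, f (insert (i, j') (insert (i', j) T)) := by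
      intro i' hi'
      rw [jf_row hf (fp_insert hi (Ne.symm (Finset.ne_of_mem_erase hi'))), ← Finset.add_sum_erase _ _ (Finset.mem_univ j),
        hf.1 _ (not_isM_of (e := (i, j)) (e' := (i', j)) (Finset.mem_insert_self _ _)
          (Finset.mem_insert_of_mem (Finset.mem_insert_self _ _))
          (fun h => Finset.ne_of_mem_erase hi' (congrArg Prod.fst h).symm) (Or.inr rfl)), zero_add]
    have h2 : ∀ j' ∈ univ.erase j, jf f (insert (i, j') T) = ∑ i' ∈ univ.erase i, f (insert (i', j) (insert (i, j') T)) := by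
      intro j' hj'
      rw [jf_col hmn hf (fh_insert hj (Ne.symm (Finset.ne_of_mem_erase hj'))), ← Finset.add_sum_erase _ _ (Finset.mem_univ i),
        hf.1 _ (not_isM_of (e := (i, j)) (e' := (i, j')) (Finset.mem_insert_self _ _)
          (Finset.mem_insert_of_mem (Finset.mem_insert_self _ _))
          (fun h => Finset.ne_of_mem_erase hj' (congrArg Prod.snd h).symm) (Or.inl rfl)), zero_add]
    rw [Finset.sum_congr rfl h1, Finset.sum_congr rfl h2, Finset.sum_comm]
    refine Finset.sum_congr rfl fun j' _ => Finset.sum_congr rfl fun i' _ => ?_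
    rw [Finset.insert_comm]

open Classical in
/-- The operator of the variable `e` on functions. -/
noncomputable def xf (e : Fin m × Fin n) (f : Finset (Fin m × Fin n) → ZMod p) (T : Finset (Fin m × Fin n)) : ZMod p :=
  if e ∈ T then jf f T else f (insert e T)

theorem xf_in {e : Fin m × Fin n} (f : Finset (Fin m × Fin n) → ZMod p) {T : Finset (Fin m × Fin n)} (h : e ∈ T) :
    xf e f T = jf f T := by
  unfold xf
  rw [if_pos h]

theorem xf_out {e : Fin m × Fin n} (f : Finset (Fin m × Fin n) → ZMod p) {T : Finset (Fin m × Fin n)} (h : e ∉ T) :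
    xf e f T = f (insert e T) := by
  unfold xf
  rw [if_neg h]

theorem xf_not {e : Fin m × Fin n} {f : Finset (Fin m × Fin n) → ZMod p} (hf : f ∈ Lam p m n) {T : Finset (Fin m × Fin n)}
    (h : ¬ IsM T) : xf e f T = 0 := by
  by_cases he : e ∈ T
  · rw [xf_in f he, jf_not f h]
  · rw [xf_out f he, hf.1 _ (not_isM_insert h e)]

theorem xf_row (hmn : n < m) {e : Fin m × Fin n} {f : Finset (Fin m × Fin n) → ZMod p} (hf : f ∈ Lam p m n)
    {T : Finset (Fin m × Fin n)} {i : Fin m} (hi : Fp T i) : ∑ j, xf e f (insert (i, j) T) = xf e (jf f) T := by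
  by_cases he : e ∈ T
  · rw [xf_in _ he, jf_row (jf_mem hmn hf) hi]
    exact Finset.sum_congr rfl fun j _ => xf_in f (Finset.mem_insert_of_mem he)
  · rw [xf_out _ he]
    obtain ⟨a, b⟩ := e
    by_cases hia : i = a
    · subst hia
      rw [Finset.sum_eq_single b]
      · exact xf_in f (Finset.mem_insert_self _ _)
      · intro j _ hj
        have h1 : (i, b) ∉ insert (i, j) T := by
          intro h
          rcases Finset.mem_insert.1 h with h | h
          · exact hj (congrArg Prod.snd h).symm
          · exact he h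
        rw [xf_out f h1]
        exact hf.1 _ (not_isM_of (e := (i, b)) (e' := (i, j)) (Finset.mem_insert_self _ _)
          (Finset.mem_insert_of_mem (Finset.mem_insert_self _ _)) (fun h => hj (congrArg Prod.snd h).symm) (Or.inl rfl))
      · exact fun h => absurd (Finset.mem_univ b) h
    · rw [jf_row hf (fp_insert hi hia)]
      refine Finset.sum_congr rfl fun j _ => ?_
      have h1 : (a, b) ∉ insert (i, j) T := by
        intro h
        rcases Finset.mem_insert.1 h with h | h
        · exact hia (congrArg Prod.fst h).symm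
        · exact he h
      rw [xf_out f h1, Finset.insert_comm]

theorem xf_col (hmn : n < m) {e : Fin m × Fin n} {f : Finset (Fin m × Fin n) → ZMod p} (hf : f ∈ Lam p m n)
    {T : Finset (Fin m × Fin n)} {j : Fin n} (hj : Fh T j) : ∑ i, xf e f (insert (i, j) T) = xf e (jf f) T := by
  by_cases he : e ∈ T
  · rw [xf_in _ he, jf_col hmn (jf_mem hmn hf) hj]
    exact Finset.sum_congr rfl fun j _ => xf_in f (Finset.mem_insert_of_mem he)
  · rw [xf_out _ he]
    obtain ⟨a, b⟩ := e
    by_cases hjb : j = b
    · subst hjb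
      rw [Finset.sum_eq_single a]
      · exact xf_in f (Finset.mem_insert_self _ _)
      · intro i _ hi
        have h1 : (a, j) ∉ insert (i, j) T := by
          intro h
          rcases Finset.mem_insert.1 h with h | h
          · exact hi (congrArg Prod.fst h).symm
          · exact he h
        rw [xf_out f h1]
        exact hf.1 _ (not_isM_of (e := (a, j)) (e' := (i, j)) (Finset.mem_insert_self _ _)
          (Finset.mem_insert_of_mem (Finset.mem_insert_self _ _)) (fun h => hi (congrArg Prod.fst h).symm) (Or.inr rfl))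
      · exact fun h => absurd (Finset.mem_univ a) h
    · rw [jf_col hmn hf (fh_insert hj hjb)]
      refine Finset.sum_congr rfl fun i _ => ?_
      have h1 : (a, b) ∉ insert (i, j) T := by
        intro h
        rcases Finset.mem_insert.1 h with h | h
        · exact hjb (congrArg Prod.snd h).symm
        · exact he h
      rw [xf_out f h1, Finset.insert_comm]

theorem xf_mem (hmn : n < m) (e : Fin m × Fin n) {f : Finset (Fin m × Fin n) → ZMod p} (hf : f ∈ Lam p m n) :
    xf e f ∈ Lam p m n := by
  refine ⟨fun T h => xf_not hf h, fun T hT i i' hi hi' => ?_, fun T hT i j hi hj => ?_⟩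
  · rw [xf_row hmn hf hi, xf_row hmn hf hi']
  · rw [xf_row hmn hf hi, xf_col hmn hf hj]

theorem jf_xf (hmn : n < m) (e : Fin m × Fin n) {f : Finset (Fin m × Fin n) → ZMod p} (hf : f ∈ Lam p m n) :
    jf (xf e f) = xf e (jf f) := by
  funext T
  by_cases hT : IsM T
  · obtain ⟨i, hi⟩ := exists_fp hmn hT
    rw [jf_row (xf_mem hmn e hf) hi, xf_row hmn hf hi]
  · rw [jf_not _ hT, xf_not (jf_mem hmn hf) hT]

theorem xf_xf_self (hmn : n < m) (e : Fin m × Fin n) {f : Finset (Fin m × Fin n) → ZMod p} (hf : f ∈ Lam p m n) :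
    xf e (xf e f) = jf (xf e f) := by
  funext T
  by_cases he : e ∈ T
  · rw [xf_in _ he]
  · rw [xf_out _ he, xf_in _ (Finset.mem_insert_self e T), jf_xf hmn e hf, xf_out _ he]

theorem xf_comm (hmn : n < m) (e e' : Fin m × Fin n) {f : Finset (Fin m × Fin n) → ZMod p} (hf : f ∈ Lam p m n) :
    xf e (xf e' f) = xf e' (xf e f) := by
  have key : ∀ (e e' : Fin m × Fin n) (T : Finset (Fin m × Fin n)), e ∈ T → xf e (xf e' f) T = xf e' (xf e f) T := by
    intro e e' T he
    rw [xf_in _ he, jf_xf hmn e' hf]
    by_cases he' : e' ∈ T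
    · rw [xf_in _ he', xf_in _ he', jf_xf hmn e hf, xf_in _ he]
    · rw [xf_out _ he', xf_out _ he', xf_in _ (Finset.mem_insert_of_mem he)]
  funext T
  by_cases he : e ∈ T
  · exact key e e' T he
  by_cases he' : e' ∈ T
  · exact (key e' e T he').symm
  by_cases hee : e = e'
  · rw [hee]
  rw [xf_out _ he, xf_out _ he', xf_out, xf_out, Finset.insert_comm]
  · intro h
    rcases Finset.mem_insert.1 h with h | h
    · exact hee h
    · exact he h
  · intro h
    rcases Finset.mem_insert.1 h with h | h
    · exact hee h.symm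
    · exact he' h

theorem xf_zero (hmn : n < m) {e e' : Fin m × Fin n} (hne : e ≠ e') (h : e.1 = e'.1 ∨ e.2 = e'.2)
    {f : Finset (Fin m × Fin n) → ZMod p} (hf : f ∈ Lam p m n) : xf e' (xf e f) = 0 := by
  funext T
  by_cases hT : IsM T
  · by_cases he' : e' ∈ T
    · rw [xf_in _ he', jf_xf hmn e hf]
      by_cases he : e ∈ T
      · exact absurd hT (not_isM_of he he' hne h)
      · rw [xf_out _ he]
        exact jf_not _ (not_isM_of (Finset.mem_insert_self e T) (Finset.mem_insert_of_mem he') hne h)
    · rw [xf_out _ he']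
      by_cases hT' : IsM (insert e' T)
      · have he : e ∉ insert e' T := fun he => not_isM_of he (Finset.mem_insert_self e' T) hne h hT'
        rw [xf_out _ he]
        exact hf.1 _ (not_isM_of (Finset.mem_insert_self e _) (Finset.mem_insert_of_mem (Finset.mem_insert_self e' T)) hne h)
      · exact xf_not hf hT'
  · exact xf_not (xf_mem hmn e hf) hT

theorem xf_sumrow (i : Fin m) {f : Finset (Fin m × Fin n) → ZMod p} (hf : f ∈ Lam p m n)
    (T : Finset (Fin m × Fin n)) : ∑ j, xf (i, j) f T = jf f T := by
  by_cases hT : IsM T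
  · by_cases hi : Fp T i
    · rw [jf_row hf hi]
      exact Finset.sum_congr rfl fun j _ => xf_out f fun h => hi _ h rfl
    · have h1 : ∃ e ∈ T, e.1 = i := by
        by_contra hc
        exact hi fun e he h => hc ⟨e, he, h⟩
      obtain ⟨⟨a, b⟩, hab, rfl⟩ := h1
      rw [Finset.sum_eq_single b]
      · exact xf_in f hab
      · intro j _ hj
        have h2 : (a, j) ∉ T := fun h => hj (congrArg Prod.snd (hT _ h _ hab (Or.inl rfl)))
        rw [xf_out f h2]
        exact hf.1 _ (not_isM_of (e := (a, j)) (e' := (a, b)) (Finset.mem_insert_self _ _) (Finset.mem_insert_of_mem hab)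
          (fun h => hj (congrArg Prod.snd h)) (Or.inl rfl))
      · exact fun h => absurd (Finset.mem_univ b) h
  · rw [jf_not f hT]
    exact Finset.sum_eq_zero fun j _ => xf_not hf hT

theorem xf_sumcol (hmn : n < m) (j : Fin n) {f : Finset (Fin m × Fin n) → ZMod p} (hf : f ∈ Lam p m n)
    (T : Finset (Fin m × Fin n)) : ∑ i, xf (i, j) f T = jf f T := by
  by_cases hT : IsM T
  · by_cases hj : Fh T j
    · rw [jf_col hmn hf hj]
      exact Finset.sum_congr rfl fun i _ => xf_out f fun h => hj _ h rfl
    · have h1 : ∃ e ∈ T, e.2 = j := by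
        by_contra hc
        exact hj fun e he h => hc ⟨e, he, h⟩
      obtain ⟨⟨a, b⟩, hab, rfl⟩ := h1
      rw [Finset.sum_eq_single a]
      · exact xf_in f hab
      · intro i _ hi
        have h2 : (i, b) ∉ T := fun h => hi (congrArg Prod.fst (hT _ h _ hab (Or.inr rfl)))
        rw [xf_out f h2]
        exact hf.1 _ (not_isM_of (e := (i, b)) (e' := (a, b)) (Finset.mem_insert_self _ _) (Finset.mem_insert_of_mem hab)
          (fun h => hi (congrArg Prod.fst h)) (Or.inr rfl))
      · exact fun h => absurd (Finset.mem_univ a) h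
  · rw [jf_not f hT]
    exact Finset.sum_eq_zero fun j _ => xf_not hf hT

theorem jf_add (f g : Finset (Fin m × Fin n) → ZMod p) : jf (f + g) = jf f + jf g := by
  funext T
  rw [Pi.add_apply]
  unfold jf
  by_cases h : IsM T ∧ ∃ i, Fp T i
  · rw [dif_pos h, dif_pos h, dif_pos h]
    simp only [Pi.add_apply, Finset.sum_add_distrib]
  · rw [dif_neg h, dif_neg h, dif_neg h, add_zero]

theorem jf_smul (c : ZMod p) (f : Finset (Fin m × Fin n) → ZMod p) : jf (c • f) = c • jf f := by
  funext T
  rw [Pi.smul_apply]
  unfold jf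
  by_cases h : IsM T ∧ ∃ i, Fp T i
  · rw [dif_pos h, dif_pos h]
    simp only [Pi.smul_apply, smul_eq_mul, Finset.mul_sum]
  · rw [dif_neg h, dif_neg h, smul_zero]

theorem xf_add (e : Fin m × Fin n) (f g : Finset (Fin m × Fin n) → ZMod p) : xf e (f + g) = xf e f + xf e g := by
  funext T
  rw [Pi.add_apply]
  by_cases he : e ∈ T
  · rw [xf_in _ he, xf_in _ he, xf_in _ he, jf_add, Pi.add_apply]
  · rw [xf_out _ he, xf_out _ he, xf_out _ he, Pi.add_apply]

theorem xf_smul (e : Fin m × Fin n) (c : ZMod p) (f : Finset (Fin m × Fin n) → ZMod p) : xf e (c • f) = c • xf e f := by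
  funext T
  rw [Pi.smul_apply]
  by_cases he : e ∈ T
  · rw [xf_in _ he, xf_in _ he, jf_smul, Pi.smul_apply]
  · rw [xf_out _ he, xf_out _ he, Pi.smul_apply]

/-- `J` on the doubly consistent functions. -/
noncomputable def Js (hmn : n < m) : Lam p m n →ₗ[ZMod p] Lam p m n where
  toFun f := ⟨jf f.1, jf_mem hmn f.2⟩
  map_add' f g := Subtype.ext (jf_add f.1 g.1)
  map_smul' c f := Subtype.ext (jf_smul c f.1)

/-- `X e` on the doubly consistent functions. -/
noncomputable def Xs (hmn : n < m) (e : Fin m × Fin n) : Lam p m n →ₗ[ZMod p] Lam p m n where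
  toFun f := ⟨xf e f.1, xf_mem hmn e f.2⟩
  map_add' f g := Subtype.ext (xf_add e f.1 g.1)
  map_smul' c f := Subtype.ext (xf_smul e c f.1)

theorem ev_apply (T : Finset (Fin m × Fin n)) (f : Lam p m n) : ev p m n T f = f.1 T := rfl

/-- The operators. -/
noncomputable def vops (p m n : ℕ) (hmn : n < m) : VOps p m n where
  J := (Js hmn).dualMap
  X e := (Xs hmn e).dualMap
  evnot T h := by
    refine LinearMap.ext fun f => ?_
    rw [ev_apply, LinearMap.zero_apply]
    exact f.2.1 T h
  commJ e x := by
    refine LinearMap.ext fun f => ?_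
    simp only [LinearMap.dualMap_apply]
    congr 1
    exact Subtype.ext (jf_xf hmn e f.2).symm
  comm e e' x := by
    refine LinearMap.ext fun f => ?_
    simp only [LinearMap.dualMap_apply]
    congr 1
    exact Subtype.ext (xf_comm hmn e' e f.2)
  idem e x := by
    refine LinearMap.ext fun f => ?_
    simp only [LinearMap.dualMap_apply]
    congr 1
    refine Subtype.ext ?_
    show xf e (xf e f.1) = xf e (jf f.1)
    rw [xf_xf_self hmn e f.2, jf_xf hmn e f.2]
  Jrow T i h := by
    refine LinearMap.ext fun f => ?_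
    rw [LinearMap.dualMap_apply, LinearMap.sum_apply]
    exact jf_row f.2 h
  Jcol T j h := by
    refine LinearMap.ext fun f => ?_
    rw [LinearMap.dualMap_apply, LinearMap.sum_apply]
    exact jf_col hmn f.2 h
  Xin T e h := by
    refine LinearMap.ext fun f => ?_
    rw [LinearMap.dualMap_apply, LinearMap.dualMap_apply]
    exact xf_in f.1 h
  Xout T e h := by
    refine LinearMap.ext fun f => ?_
    rw [LinearMap.dualMap_apply]
    exact xf_out f.1 h
  row i x := by
    refine LinearMap.ext fun f => ?_
    rw [LinearMap.sum_apply]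
    simp only [LinearMap.dualMap_apply]
    rw [← map_sum]
    congr 1
    refine Subtype.ext (funext fun T => ?_)
    rw [AddSubmonoidClass.coe_finsetSum, Finset.sum_apply]
    exact xf_sumrow i f.2 T
  col j x := by
    refine LinearMap.ext fun f => ?_
    rw [LinearMap.sum_apply]
    simp only [LinearMap.dualMap_apply]
    rw [← map_sum]
    congr 1
    refine Subtype.ext (funext fun T => ?_)
    rw [AddSubmonoidClass.coe_finsetSum, Finset.sum_apply]
    exact xf_sumcol hmn j f.2 T
  prow i j j' x h := by
    refine LinearMap.ext fun f => ?_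
    simp only [LinearMap.dualMap_apply]
    have h1 : Xs hmn (i, j') (Xs hmn (i, j) f) = 0 :=
      Subtype.ext (xf_zero (e := (i, j)) (e' := (i, j')) hmn (fun h' => h (congrArg Prod.snd h')) (Or.inl rfl) f.2)
    rw [h1, map_zero, LinearMap.zero_apply]
  pcol i i' j x h := by
    refine LinearMap.ext fun f => ?_
    simp only [LinearMap.dualMap_apply]
    have h1 : Xs hmn (i', j) (Xs hmn (i, j) f) = 0 :=
      Subtype.ext (xf_zero (e := (i, j)) (e' := (i', j)) hmn (fun h' => h (congrArg Prod.fst h')) (Or.inr rfl) f.2)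
    rw [h1, map_zero, LinearMap.zero_apply]

end PPh
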