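import Pool.Agent.H65.AF.ADefs

/-!
helper94 (project MP_28250c_PP, the pigeonhole principle for AC0[p]-Frege; paper: /team-store/H94_PHP.md): definitions of all blocks and
the interface statements (Props) between the blocks.
-/

set_option autoImplicit false
open Finset

namespace PPh

open ACpFrege

/-! ### The formulas -/

/-- The pigeonhole principle with `m` pigeons and `n` holes: `x_(i n + j)` says that pigeon `i` sits in hole `j`. Every pigeon sits in some
hole; no two pigeons sit in the same hole. -/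
def php (m n : ℕ) : CNF :=
  ((List.range m).map fun i => (List.range n).map fun j => (i * n + j, true)) ++
    (List.range n).flatMap fun j => (List.range m).flatMap fun i' => (List.range i').map fun i =>
      [(i * n + j, false), (i' * n + j, false)]

/-- The onto functional pigeonhole principle: moreover every hole is occupied and no pigeon sits in two holes. -/
def ofphp (m n : ℕ) : CNF :=
  php m n ++ (((List.range n).map fun j => (List.range m).map fun i => (i * n + j, true)) ++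
    (List.range m).flatMap fun i => (List.range n).flatMap fun j' => (List.range j').map fun j =>
      [(i * n + j, false), (i * n + j', false)])

/-! ### Block G: graded modules -/

/-- A graded module: subspaces `M 0, M 1, ..` of `E`, operators `X i` and `J` of degree 1 which commute, `X i * X i = J * X i`. -/
structure Gm (K : Type) [Field K] (E : Type) [AddCommGroup E] [Module K E] (n : ℕ) where
  J : E →ₗ[K] E
  X : Fin n → E →ₗ[K] E
  M : ℕ → Submodule K E
  mapJ : ∀ j, ∀ m ∈ M j, J m ∈ M (j + 1)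
  mapX : ∀ i j, ∀ m ∈ M j, X i m ∈ M (j + 1)
  commJ : ∀ i m, J (X i m) = X i (J m)
  comm : ∀ i i' m, X i (X i' m) = X i' (X i m)
  idem : ∀ i m, X i (X i m) = J (X i m)

section

variable {K : Type} [Field K] {E : Type} [AddCommGroup E] [Module K E] {n : ℕ}

/-- The product of the operators `X i`, `i ∈ S`, in increasing order. -/
noncomputable def Gm.XS (g : Gm K E n) (S : Finset (Fin n)) : E →ₗ[K] E := ((S.sort (· ≤ ·)).map g.X).prod

/-- The action of a function of degree at most `a` on the cube as an operator of degree `a`. -/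
noncomputable def Gm.hact (g : Gm K E n) (a : ℕ) (f : Pt n → K) : E →ₗ[K] E :=
  ∑ S : Finset (Fin n), if S.card ≤ a then cf f S • (g.J ^ (a - S.card) * g.XS S) else 0

/-- The space of operators of degree `a`. -/
noncomputable def Gm.Op (g : Gm K E n) (a : ℕ) : Submodule K (E →ₗ[K] E) :=
  Submodule.span K {P | ∃ S : Finset (Fin n), S.card ≤ a ∧ P = g.J ^ (a - S.card) * g.XS S}

/-- The clause `C` holds in the graded module: it is a pair of negative literals whose product vanishes, or a set of positive literals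
whose sum is `J`. -/
def Gm.Cl (g : Gm K E n) (C : List Lit) : Prop :=
  (∃ i i' : Fin n, C = [(i.1, false), (i'.1, false)] ∧ ∀ m, g.X i (g.X i' m) = 0) ∨
    ∃ l : List (Fin n), l.Nodup ∧ C = l.map (fun i => (i.1, true)) ∧ ∀ m, (l.map fun i => g.X i m).sum = g.J m

end

/-- The CNF `F` has a graded module over `Z/p` of length `L`, growth factor `A`, kernels of `J` smaller than `M 0` by a factor `R`, and
operator spaces of dimension at most `del`. -/
def HasGm (p n : ℕ) [Fact p.Prime] (F : CNF) (L A R del : ℕ) : Prop :=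
  ∃ (E : Type) (_ : AddCommGroup E) (_ : Module (ZMod p) E) (_ : FiniteDimensional (ZMod p) E) (g : Gm (ZMod p) E n),
    16 * L ^ 2 * del ^ 2 < Module.finrank (ZMod p) (g.M 0) ∧
    (∀ j, j ≤ L → Module.finrank (ZMod p) (g.M j) ≤ A * Module.finrank (ZMod p) (g.M 0)) ∧
    (∀ j, j < L → R * Module.finrank (ZMod p) ↥(g.M j ⊓ LinearMap.ker g.J) ≤ Module.finrank (ZMod p) (g.M 0)) ∧
    (∀ a, a ≤ L → Module.finrank (ZMod p) (g.Op a) ≤ del) ∧
    ∀ C ∈ F, g.Cl C

/-- Output of block G: THEOREM G, uniform in the depth. -/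
def OutG (p : ℕ) [Fact p.Prime] : Prop :=
  ∀ S : List (Rule p), (∀ R ∈ S, R.Sound) → ∃ C : ℕ, ∀ (d n : ℕ) (F : CNF) (L A R del N t : ℕ), HasGm p n F L A R del →
    1 ≤ t → C * (p * t) ^ (d + 2) ≤ L → C * N * A * 2 ^ t < 3 ^ t → C * N ^ 2 * L ≤ R → 16 * L * del ≤ R →
    ∀ π : List (Fm p), Refutes S d F π → N < psize π

/-! ### Block V: the module of doubly consistent functions -/

/-- The set `T` of pairs is a matching. -/
def IsM {α β : Type} (T : Finset (α × β)) : Prop := ∀ e ∈ T, ∀ e' ∈ T, e.1 = e'.1 ∨ e.2 = e'.2 → e = e'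

/-- The pigeon `i` is free. -/
def Fp {α β : Type} (T : Finset (α × β)) (i : α) : Prop := ∀ e ∈ T, e.1 ≠ i

/-- The hole `j` is free. -/
def Fh {α β : Type} (T : Finset (α × β)) (j : β) : Prop := ∀ e ∈ T, e.2 ≠ j

/-- Doubly consistent functions on the matchings between `m` pigeons and `n` holes: for every matching `T` all the sums over the
extensions of `T` at a free pigeon and at a free hole are equal. -/
def Lam (p m n : ℕ) : Submodule (ZMod p) (Finset (Fin m × Fin n) → ZMod p) where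
  carrier := {f | (∀ T, ¬ IsM T → f T = 0) ∧
    (∀ T, IsM T → ∀ i i', Fp T i → Fp T i' → ∑ j, f (insert (i, j) T) = ∑ j, f (insert (i', j) T)) ∧
    (∀ T, IsM T → ∀ i j, Fp T i → Fh T j → ∑ i', f (insert (i', j) T) = ∑ j', f (insert (i, j') T))}
  add_mem' := by
    rintro f g ⟨hf, hf1, hf2⟩ ⟨hg, hg1, hg2⟩
    refine ⟨fun T h => ?_, fun T h i i' hi hi' => ?_, fun T h i j hi hj => ?_⟩
    · rw [Pi.add_apply, hf T h, hg T h, add_zero]
    · simp only [Pi.add_apply, Finset.sum_add_distrib]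
      rw [hf1 T h i i' hi hi', hg1 T h i i' hi hi']
    · simp only [Pi.add_apply, Finset.sum_add_distrib]
      rw [hf2 T h i j hi hj, hg2 T h i j hi hj]
  zero_mem' := ⟨fun _ _ => rfl, fun _ _ _ _ _ _ => by simp, fun _ _ _ _ _ _ => by simp⟩
  smul_mem' := by
    rintro c f ⟨hf, hf1, hf2⟩
    refine ⟨fun T h => ?_, fun T h i i' hi hi' => ?_, fun T h i j hi hj => ?_⟩
    · rw [Pi.smul_apply, hf T h, smul_zero]
    · simp only [Pi.smul_apply, smul_eq_mul, ← Finset.mul_sum]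
      rw [hf1 T h i i' hi hi']
    · simp only [Pi.smul_apply, smul_eq_mul, ← Finset.mul_sum]
      rw [hf2 T h i j hi hj]

open Classical in
/-- The common value of the sums (0 if `T` is no matching or has no free pigeon). -/
noncomputable def jf {p m n : ℕ} (f : Finset (Fin m × Fin n) → ZMod p) (T : Finset (Fin m × Fin n)) : ZMod p :=
  if h : IsM T ∧ ∃ i, Fp T i then ∑ j, f (insert (h.2.choose, j) T) else 0

/-- The space on which everything acts. -/
abbrev VE (p m n : ℕ) : Type := Module.Dual (ZMod p) (Lam p m n)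

/-- Evaluation at `T`. -/
def ev (p m n : ℕ) (T : Finset (Fin m × Fin n)) : VE p m n := (LinearMap.proj T).comp (Lam p m n).subtype

/-- The span of the evaluations at the matchings of size `D`. -/
def Md (p m n D : ℕ) : Submodule (ZMod p) (VE p m n) :=
  Submodule.span (ZMod p) {x | ∃ T : Finset (Fin m × Fin n), T.card = D ∧ x = ev p m n T}

/-- Output of block V, first part: the operators `J` and `X (a, b)` on the evaluations. -/
structure VOps (p m n : ℕ) where
  J : VE p m n →ₗ[ZMod p] VE p m n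
  X : Fin m × Fin n → VE p m n →ₗ[ZMod p] VE p m n
  evnot : ∀ T, ¬ IsM T → ev p m n T = 0
  commJ : ∀ e x, J (X e x) = X e (J x)
  comm : ∀ e e' x, X e (X e' x) = X e' (X e x)
  idem : ∀ e x, X e (X e x) = J (X e x)
  Jrow : ∀ T i, Fp T i → J (ev p m n T) = ∑ j, ev p m n (insert (i, j) T)
  Jcol : ∀ T j, Fh T j → J (ev p m n T) = ∑ i, ev p m n (insert (i, j) T)
  Xin : ∀ T e, e ∈ T → X e (ev p m n T) = J (ev p m n T)
  Xout : ∀ T e, e ∉ T → X e (ev p m n T) = ev p m n (insert e T)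
  row : ∀ i x, ∑ j, X (i, j) x = J x
  col : ∀ j x, ∑ i, X (i, j) x = J x
  prow : ∀ i j j' x, j ≠ j' → X (i, j) (X (i, j') x) = 0
  pcol : ∀ i i' j x, i ≠ i' → X (i, j) (X (i', j) x) = 0

/-- Output of block V, second part. -/
structure VNil (p l n : ℕ) (v : VOps p (n + p ^ l) n) : Prop where
  nil : ∀ D, ∀ x ∈ Md p (n + p ^ l) n D, (v.J ^ (p ^ l)) x = 0

/-! ### Ballot words (blocks A, B, E) -/

/-- The word `w` is ballot: in every prefix `i + 1` does not occur more often than `i`. -/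
def Ballot {N : ℕ} (w : Fin N → ℕ) : Prop :=
  ∀ v i : ℕ, (univ.filter fun u : Fin N => (u : ℕ) < v ∧ w u = i + 1).card ≤ (univ.filter fun u : Fin N => (u : ℕ) < v ∧ w u = i).card

/-- The number of occurrences of `i`. -/
def ctt {N : ℕ} (w : Fin N → ℕ) (i : ℕ) : ℕ := (univ.filter fun u => w u = i).card

/-- A pair of words, one on the pigeons and one on the holes, with the same number of occurrences of every `i ≥ 1`. -/
def Pr {m n : ℕ} (P : Fin m → ℕ) (Q : Fin n → ℕ) : Prop := ∀ i, 1 ≤ i → ctt P i = ctt Q i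

/-- The size of a pair: the number of nonzero values. -/
def sz {n : ℕ} (Q : Fin n → ℕ) : ℕ := (univ.filter fun j => Q j ≠ 0).card

/-- The ballot pairs for which the numbers of zeros and of ones of `Q` satisfy `R`. -/
def bset (m n : ℕ) (R : ℕ → ℕ → Prop) : Set ((Fin m → ℕ) × (Fin n → ℕ)) :=
  {PQ | Ballot PQ.1 ∧ Ballot PQ.2 ∧ Pr PQ.1 PQ.2 ∧ R (ctt PQ.2 0) (ctt PQ.2 1)}

/-- Their number. -/
noncomputable def cnt (m n : ℕ) (R : ℕ → ℕ → Prop) : ℕ := (bset m n R).ncard

/-- Output of block A: the upper bound (`D ≤ n`). -/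
def OutA (p l : ℕ) : Prop := ∀ n D : ℕ, D ≤ n → Module.finrank (ZMod p) (Md p (n + p ^ l) n D) ≤
  cnt (n + p ^ l) n fun u _ => n - D ≤ u ∧ u < n - D + p ^ l

/-- Output of block B: the lower bound for the image of `J` (`D ≤ n`; `u` zeros and `v` ones; the size of the pair is `n - u`). -/
def OutB (p l : ℕ) : Prop := ∀ n D : ℕ, D ≤ n → ∀ v : VOps p (n + p ^ l) n,
  cnt (n + p ^ l) n (fun u w => n - D ≤ u ∧ u + 2 ≤ n - D + 2 ^ l ∧ w + (p + 2) ^ l ≤ u) ≤
    Module.finrank (ZMod p) ((Md p (n + p ^ l) n D).map v.J)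

/-- Output of block B': the small functional. -/
def OutB' (p l : ℕ) : Prop := ∀ (α β : Type) (_ : DecidableEq α) (_ : DecidableEq β) (A : Finset α) (B : Finset β),
  (p + 2) ^ l ≤ 2 * B.card + p ^ l → A.card = B.card + p ^ l →
  ∃ f : Finset (α × β) → ZMod p, f ∅ = 1 ∧ (∀ T, ¬ IsM T → f T = 0) ∧ (∀ T, f T ≠ 0 → T ⊆ A ×ˢ B) ∧
    (∀ T, IsM T → T.card + 2 ≤ 2 ^ l → ∀ i ∈ A, Fp T i → T ⊆ A ×ˢ B → ∑ j ∈ B, f (insert (i, j) T) = f T) ∧
    (∀ T, IsM T → T.card + 2 ≤ 2 ^ l → ∀ j ∈ B, Fh T j → T ⊆ A ×ˢ B → ∑ i ∈ A, f (insert (i, j) T) = f T)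

/-- Output of block E: the counting. -/
def OutE (p : ℕ) : Prop := ∃ l₀ : ℕ, ∀ l ≥ l₀, ∃ n r : ℕ, (2 * p + 4) ^ (5 * l) ≤ 2 * n ∧ n ≤ (2 * p + 4) ^ (5 * l) ∧
  2 ^ (l / 2) ≤ r ∧ r ≤ n ∧
  ∃ B : ℕ, B = cnt (n + p ^ l) n (fun u w => r ≤ u ∧ u + 2 ≤ r + 2 ^ l ∧ w + (p + 2) ^ l ≤ u) ∧
    2 ^ (n / 2) ≤ B ∧
    (∀ k ≤ 2 ^ (l / 2), cnt (n + p ^ l) n (fun u _ => r - k ≤ u ∧ u < r - k + p ^ l) ≤ (2 * p + 4) ^ (15 * l) * B) ∧
    ∀ k < 2 ^ (l / 2), 2 ^ (2 ^ (l / 2) / 2) * (cnt (n + p ^ l) n (fun u _ => r + 2 ^ l ≤ u + k + 1) +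
      cnt (n + p ^ l) n (fun u w => r ≤ u + k ∧ u < w + (p + 2) ^ l)) ≤ B

/-- Output of blocks A, B, E, V together: graded modules for the onto functional principle. -/
def OutM (p : ℕ) [Fact p.Prime] : Prop := ∃ l₀ : ℕ, ∀ l ≥ l₀, ∀ n L : ℕ, (2 * p + 4) ^ (5 * l) ≤ n → L ≤ 2 ^ (l / 2) →
  HasGm p ((n + p ^ l) * n) (ofphp (n + p ^ l) n) L ((2 * p + 4) ^ (15 * l)) (2 ^ (2 ^ (l / 2) / 2))
    ((2 * ((2 * p + 4) ^ (5 * l)) ^ 2) ^ L)

/-- The final statement: one explicit exponent for each prime, uniform in the system and in the depth. -/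
def StatementPHP : Prop :=
  ∀ p : ℕ, p.Prime → ∃ c > (0 : ℝ), ∀ S : List (Rule p), (∀ R ∈ S, R.Sound) → ∃ n₀ : ℕ, ∀ n ≥ n₀, ∀ d : ℕ,
    Real.log n ^ (d + 1) ≤ (n : ℝ) ^ c → ∀ m : ℕ, n < m → (m : ℝ) ≤ n + (n : ℝ) ^ c →
      ∀ π : List (Fm p), Refutes S d (php m n) π → (2 : ℝ) ^ ((n : ℝ) ^ (c / (d + 1))) ≤ psize π

/-- The final statement for the onto functional principle. -/
def StatementOF : Prop :=
  ∀ p : ℕ, p.Prime → ∃ c > (0 : ℝ), ∀ S : List (Rule p), (∀ R ∈ S, R.Sound) → ∃ l₀ : ℕ, ∀ l ≥ l₀, ∀ d : ℕ,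
    (l : ℝ) ^ (d + 1) ≤ 2 ^ (c * l) → ∀ n : ℕ, (2 * p + 4) ^ (5 * l) ≤ n →
      ∀ π : List (Fm p), Refutes S d (ofphp (n + p ^ l) n) π → (2 : ℝ) ^ ((2 : ℝ) ^ (c * l / (d + 1))) ≤ psize π

end PPh
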