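import Pool.Agent.H94.PP.Defs

/-!
helper94 (project MP_28250c_PP): the pigeonhole formulas are unsatisfiable, and their size.
-/

set_option autoImplicit false
open Finset

namespace PPh

open ACpFrege

theorem php_unsat {m n : ℕ} (h : n < m) : (php m n).Unsat := by
  intro a
  by_contra hc
  push Not at hc
  have h1 : ∀ i : Fin m, ∃ j : Fin n, a (i.1 * n + j.1) = true := by
    intro i
    have h2 : ((List.range n).map fun j => (i.1 * n + j, true)) ∈ php m n := by
      unfold php
      exact List.mem_append_left _ (List.mem_map.2 ⟨i.1, List.mem_range.2 i.2, rfl⟩)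
    obtain ⟨l, hl, hl'⟩ := hc _ h2
    obtain ⟨j, hj, rfl⟩ := List.mem_map.1 hl
    exact ⟨⟨j, List.mem_range.1 hj⟩, hl'⟩
  choose f hf using h1
  obtain ⟨i, i', hne, heq⟩ := Fintype.exists_ne_map_eq_of_card_lt f (by simpa using h)
  have key : ∀ i i' : Fin m, i.1 < i'.1 → f i = f i' → False := by
    intro i i' hlt heq
    have h2 : [(i.1 * n + (f i).1, false), (i'.1 * n + (f i).1, false)] ∈ php m n := by
      unfold php
      refine List.mem_append_right _ ?_
      simp only [List.mem_flatMap, List.mem_range, List.mem_map]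
      exact ⟨(f i).1, (f i).2, i'.1, i'.2, i.1, hlt, rfl⟩
    obtain ⟨l, hl, hl'⟩ := hc _ h2
    simp only [List.mem_cons, List.not_mem_nil, or_false] at hl
    rcases hl with rfl | rfl
    · exact absurd (hf i) (by rw [hl']; exact Bool.false_ne_true)
    · rw [heq] at hl'
      exact absurd (hf i') (by rw [hl']; exact Bool.false_ne_true)
  rcases Nat.lt_or_gt_of_ne (fun h' => hne (Fin.ext h')) with h2 | h2
  · exact key i i' h2 heq
  · exact key i' i h2 heq.symm

theorem ofphp_unsat {m n : ℕ} (h : n < m) : (ofphp m n).Unsat := by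
  intro a
  obtain ⟨C, hC, hC'⟩ := php_unsat h a
  exact ⟨C, List.mem_append_left _ hC, hC'⟩

end PPh
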