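import Pool.Agent.H94.PP.VmOut
import Pool.Agent.H94.PP.Unsat
import Pool.Agent.H56.PP.V12
import Pool.Agent.H12.PP.OutA
import Pool.Agent.H33.PP.BMain
import Pool.Agent.H84.PP.Small3
import Pool.Agent.H69.PP.Out
import Pool.Agent.H75.PP.GOut
import Pool.Agent.H65.PP.F

/-!
helper94 (project MP_28250c_PP): all blocks together.
-/

set_option autoImplicit false
open Finset

namespace PPh

theorem outM_all (p : ℕ) [Fact p.Prime] : OutM p :=
  outM p (fun l => outA_of p l fun n v => vnil p l n v) (fun l => BB.outB_of p l (Pool.Agent.H84.PP.outB' p l))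
    (PPE.outE p (Fact.out : p.Prime).two_le)

theorem mainPP : StatementPHPx ∧ StatementOFx := blockFx (fun p _ => Sd.outG p) (fun p _ => outM_all p)

end PPh
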