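import Pool.Agent.H94.PP.Defs

/-!
helper94 (project MP_28250c_PP): the assembly of the blocks (interfaces `OutG`, `OutA`, `OutB`, `OutB'`, `OutE`, `OutM`).
-/

set_option autoImplicit false
open Finset

namespace PPh

open ACpFrege

/-- The interfaces which have to be proved, and what they give. -/
structure Blocks : Prop where
  g : ∀ (p : ℕ) [Fact p.Prime], OutG p
  v : ∀ (p m n : ℕ) [Fact p.Prime], n < m → Nonempty (VOps p m n)
  nil : ∀ (p l n : ℕ) [Fact p.Prime] (v : VOps p (n + p ^ l) n), VNil p l n v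
  a : ∀ (p l : ℕ) [Fact p.Prime], (∀ n (v : VOps p (n + p ^ l) n), VNil p l n v) → OutA p l
  b' : ∀ (p l : ℕ) [Fact p.Prime], OutB' p l
  b : ∀ (p l : ℕ) [Fact p.Prime], OutB' p l → OutB p l
  e : ∀ (p : ℕ) [Fact p.Prime], OutE p
  m : ∀ (p : ℕ) [Fact p.Prime], (∀ l, OutA p l) → (∀ l, OutB p l) → OutE p → OutM p
  f : (∀ (p : ℕ) [Fact p.Prime], OutG p) → (∀ (p : ℕ) [Fact p.Prime], OutM p) → StatementPHP ∧ StatementOF

theorem main_of (h : Blocks) : StatementPHP ∧ StatementOF := by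
  refine h.f (fun p _ => h.g p) (fun p hp => ?_)
  exact h.m p (fun l => h.a p l fun n v => h.nil p l n v) (fun l => h.b p l (h.b' p l)) (h.e p)

end PPh
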