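import Pool.Agent.H94.PP.V0

/-!
helper94 (project MP_28250c_PP, block V): graded modules for `ofphp (n + s) n` from the module of a smaller `n'` (V3) and the
assembly of the blocks A, B, E: `outM`.
-/

set_option autoImplicit false
open Finset

namespace PPh

open ACpFrege

variable {p m n : ℕ}

theorem rank_ker {K E : Type} [Field K] [AddCommGroup E] [Module K E] [FiniteDimensional K E] (f : E →ₗ[K] E) (W : Submodule K E) :
    Module.finrank K (W.map f) + Module.finrank K ↥(W ⊓ LinearMap.ker f) = Module.finrank K W := by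
  have h := LinearMap.finrank_range_add_finrank_ker (f.domRestrict W)
  have h1 : LinearMap.range (f.domRestrict W) = W.map f := by
    rw [LinearMap.domRestrict, LinearMap.range_comp, Submodule.range_subtype]
  have h3 : (LinearMap.ker (f.domRestrict W)).map W.subtype = W ⊓ LinearMap.ker f := by
    ext x
    simp only [Submodule.mem_map, LinearMap.mem_ker, Submodule.mem_inf, Submodule.coe_subtype]
    constructor
    · rintro ⟨y, hy, rfl⟩
      exact ⟨y.2, hy⟩
    · rintro ⟨hx, hx'⟩
      exact ⟨⟨x, hx⟩, hx', rfl⟩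
  rw [h1] at h
  rw [← h3, Submodule.finrank_map_subtype_eq]
  exact h

/-- The operator of the pair `(i, j)`, `i < n + s`, `j < n` built from the module for `m' = n' + s` pigeons and `n'` holes. -/
noncomputable def XX {m' n' : ℕ} (v : VOps p m' n') (i j : ℕ) : VE p m' n' →ₗ[ZMod p] VE p m' n' :=
  if h : i < m' ∧ j < n' then v.X (⟨i, h.1⟩, ⟨j, h.2⟩) else if m' ≤ i ∧ n' ≤ j ∧ i + n' = j + m' then v.J else 0

section
variable {m' n' : ℕ} (v : VOps p m' n')

theorem XX_cases (i j : ℕ) : (∃ e, XX v i j = v.X e) ∨ XX v i j = v.J ∨ XX v i j = 0 := by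
  unfold XX
  by_cases h : i < m' ∧ j < n'
  · rw [dif_pos h]
    exact Or.inl ⟨_, rfl⟩
  · rw [dif_neg h]
    by_cases h' : m' ≤ i ∧ n' ≤ j ∧ i + n' = j + m'
    · rw [if_pos h']
      exact Or.inr (Or.inl rfl)
    · rw [if_neg h']
      exact Or.inr (Or.inr rfl)

theorem XX_commJ (i j : ℕ) (x : VE p m' n') : v.J (XX v i j x) = XX v i j (v.J x) := by
  rcases XX_cases v i j with ⟨e, h⟩ | h | h <;> rw [h]
  · exact v.commJ e x
  · simp

theorem XX_comm (i j i' j' : ℕ) (x : VE p m' n') : XX v i j (XX v i' j' x) = XX v i' j' (XX v i j x) := by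
  rcases XX_cases v i j with ⟨e, h⟩ | h | h
  · rcases XX_cases v i' j' with ⟨e', h'⟩ | h' | h' <;> rw [h, h']
    · exact v.comm e e' x
    · exact (v.commJ e x).symm
    · simp
  · rw [h]
    exact XX_commJ v i' j' x
  · rw [h]
    simp

theorem XX_idem (i j : ℕ) (x : VE p m' n') : XX v i j (XX v i j x) = v.J (XX v i j x) := by
  rcases XX_cases v i j with ⟨e, h⟩ | h | h <;> rw [h]
  · exact v.idem e x
  · simp

theorem XX_in {i j : ℕ} (hi : i < m') (hj : j < n') : XX v i j = v.X (⟨i, hi⟩, ⟨j, hj⟩) := by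
  unfold XX
  rw [dif_pos ⟨hi, hj⟩]

theorem XX_mixed {i j : ℕ} (h : (i < m' ∧ n' ≤ j) ∨ (m' ≤ i ∧ j < n')) : XX v i j = 0 := by
  unfold XX
  rw [dif_neg (by omega), if_neg (by omega)]

theorem XX_out {i j : ℕ} (hi : m' ≤ i) (hj : n' ≤ j) : XX v i j = if i + n' = j + m' then v.J else 0 := by
  unfold XX
  rw [dif_neg (by omega)]
  by_cases h : i + n' = j + m'
  · rw [if_pos ⟨hi, hj, h⟩, if_pos h]
  · rw [if_neg (fun h' => h h'.2.2), if_neg h]

/-- Row sums. -/
theorem XX_row {n : ℕ} (hn : n' ≤ n) {i : ℕ} (hi : i + n' < n + m') (x : VE p m' n') :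
    ∑ j ∈ Finset.range n, XX v i j x = v.J x := by
  by_cases h : i < m'
  · rw [← v.row ⟨i, h⟩ x, ← Finset.sum_subset (Finset.range_mono hn), Finset.sum_range]
    · refine Finset.sum_congr rfl fun j _ => ?_
      rw [XX_in v h j.2]
    · intro j _ hj
      rw [Finset.mem_range, not_lt] at hj
      rw [XX_mixed v (Or.inl ⟨h, hj⟩), LinearMap.zero_apply]
  · push Not at h
    rw [Finset.sum_eq_single (i + n' - m')]
    · rw [XX_out v h (by omega), if_pos (by omega)]
    · intro j _ hj
      by_cases hj' : j < n'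
      · rw [XX_mixed v (Or.inr ⟨h, hj'⟩), LinearMap.zero_apply]
      · rw [XX_out v h (by omega), if_neg (by omega), LinearMap.zero_apply]
    · intro h'
      exact absurd (Finset.mem_range.2 (by omega)) h'

/-- Column sums. -/
theorem XX_col {n : ℕ} (hn : n' ≤ n) {m : ℕ} (hm : m + n' = n + m') {j : ℕ} (hj : j < n) (x : VE p m' n') :
    ∑ i ∈ Finset.range m, XX v i j x = v.J x := by
  by_cases h : j < n'
  · rw [← v.col ⟨j, h⟩ x, ← Finset.sum_subset (Finset.range_mono (by omega : m' ≤ m)), Finset.sum_range]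
    · refine Finset.sum_congr rfl fun i _ => ?_
      rw [XX_in v i.2 h]
    · intro i _ hi
      rw [Finset.mem_range, not_lt] at hi
      rw [XX_mixed v (Or.inr ⟨hi, h⟩), LinearMap.zero_apply]
  · push Not at h
    rw [Finset.sum_eq_single (j + m' - n')]
    · rw [XX_out v (by omega) h, if_pos (by omega)]
    · intro i _ hi
      by_cases hi' : i < m'
      · rw [XX_mixed v (Or.inl ⟨hi', h⟩), LinearMap.zero_apply]
      · rw [XX_out v (by omega) h, if_neg (by omega), LinearMap.zero_apply]
    · intro h'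
      exact absurd (Finset.mem_range.2 (by omega)) h'

theorem XX_prow {i j j' : ℕ} (hj : j ≠ j') (x : VE p m' n') : XX v i j (XX v i j' x) = 0 := by
  by_cases hi : i < m'
  · by_cases h : j < n'
    · by_cases h' : j' < n'
      · rw [XX_in v hi h, XX_in v hi h']
        exact v.prow _ _ _ x fun h'' => hj (congrArg Fin.val h'')
      · rw [XX_mixed v (Or.inl ⟨hi, by omega⟩) (j := j'), LinearMap.zero_apply, map_zero]
    · rw [XX_mixed v (Or.inl ⟨hi, by omega⟩) (j := j), LinearMap.zero_apply]
  · by_cases h : j < n'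
    · rw [XX_mixed v (Or.inr ⟨by omega, h⟩) (j := j), LinearMap.zero_apply]
    · by_cases h' : j' < n'
      · rw [XX_mixed v (Or.inr ⟨by omega, h'⟩) (j := j'), LinearMap.zero_apply, map_zero]
      · rw [XX_out v (by omega) (by omega : n' ≤ j), XX_out v (by omega) (by omega : n' ≤ j')]
        by_cases h1 : i + n' = j + m'
        · rw [if_neg (by omega : ¬ i + n' = j' + m'), LinearMap.zero_apply, map_zero]
        · rw [if_neg h1, LinearMap.zero_apply]

theorem XX_pcol {i i' j : ℕ} (hi : i ≠ i') (x : VE p m' n') : XX v i j (XX v i' j x) = 0 := by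
  by_cases hj : j < n'
  · by_cases h : i < m'
    · by_cases h' : i' < m'
      · rw [XX_in v h hj, XX_in v h' hj]
        exact v.pcol _ _ _ x fun h'' => hi (congrArg Fin.val h'')
      · rw [XX_mixed v (Or.inr ⟨by omega, hj⟩) (i := i'), LinearMap.zero_apply, map_zero]
    · rw [XX_mixed v (Or.inr ⟨by omega, hj⟩) (i := i), LinearMap.zero_apply]
  · by_cases h : i < m'
    · rw [XX_mixed v (Or.inl ⟨h, by omega⟩) (i := i), LinearMap.zero_apply]
    · by_cases h' : i' < m'
      · rw [XX_mixed v (Or.inl ⟨h', by omega⟩) (i := i'), LinearMap.zero_apply, map_zero]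
      · rw [XX_out v (by omega : m' ≤ i) (by omega), XX_out v (by omega : m' ≤ i') (by omega)]
        by_cases h1 : i + n' = j + m'
        · rw [if_neg (by omega : ¬ i' + n' = j + m'), LinearMap.zero_apply, map_zero]
        · rw [if_neg h1, LinearMap.zero_apply]

theorem J_Md (hmn : n' < m') {D : ℕ} {x : VE p m' n'} (hx : x ∈ Md p m' n' D) : v.J x ∈ Md p m' n' (D + 1) := by
  unfold Md at hx
  induction hx using Submodule.span_induction with
  | mem x hx =>
    obtain ⟨T, hT, rfl⟩ := hx
    by_cases h : IsM T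
    · obtain ⟨i, hi⟩ := exists_fp hmn h
      rw [v.Jrow T i hi]
      refine Submodule.sum_mem _ fun j _ => Submodule.subset_span ⟨insert (i, j) T, ?_, rfl⟩
      rw [Finset.card_insert_of_notMem (fun h' => hi _ h' rfl), hT]
    · rw [v.evnot T h, map_zero]
      exact Submodule.zero_mem _
  | zero =>
    rw [map_zero]
    exact Submodule.zero_mem _
  | add x y _ _ hx hy =>
    rw [map_add]
    exact Submodule.add_mem _ hx hy
  | smul c x _ hx =>
    rw [map_smul]
    exact Submodule.smul_mem _ c hx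

theorem X_Md (hmn : n' < m') (e : Fin m' × Fin n') {D : ℕ} {x : VE p m' n'} (hx : x ∈ Md p m' n' D) :
    v.X e x ∈ Md p m' n' (D + 1) := by
  unfold Md at hx
  induction hx using Submodule.span_induction with
  | mem x hx =>
    obtain ⟨T, hT, rfl⟩ := hx
    by_cases h : e ∈ T
    · rw [v.Xin T e h]
      exact J_Md v hmn (Submodule.subset_span ⟨T, hT, rfl⟩)
    · rw [v.Xout T e h]
      refine Submodule.subset_span ⟨insert e T, ?_, rfl⟩
      rw [Finset.card_insert_of_notMem h, hT]
  | zero =>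
    rw [map_zero]
    exact Submodule.zero_mem _
  | add x y _ _ hx hy =>
    rw [map_add]
    exact Submodule.add_mem _ hx hy
  | smul c x _ hx =>
    rw [map_smul]
    exact Submodule.smul_mem _ c hx

theorem XX_Md (hmn : n' < m') (i j : ℕ) {D : ℕ} {x : VE p m' n'} (hx : x ∈ Md p m' n' D) : XX v i j x ∈ Md p m' n' (D + 1) := by
  rcases XX_cases v i j with ⟨e, h⟩ | h | h <;> rw [h]
  · exact X_Md v hmn e hx
  · exact J_Md v hmn hx
  · rw [LinearMap.zero_apply]
    exact Submodule.zero_mem _

/-- The graded module for `m` pigeons and `n` holes (`m n` variables). -/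
noncomputable def gmo [Fact p.Prime] (hmn : n' < m') (D v' : ℕ) (n : ℕ) : Gm (ZMod p) (VE p m' n') v' where
  J := v.J
  X := fun x => XX v (x.1 / n) (x.1 % n)
  M := fun j => Md p m' n' (D + j)
  mapJ := fun _ _ hm => J_Md v hmn hm
  mapX := fun _ _ _ hm => XX_Md v hmn _ _ hm
  commJ := fun _ _ => XX_commJ v _ _ _
  comm := fun _ _ _ => XX_comm v _ _ _ _ _
  idem := fun _ _ => XX_idem v _ _ _

theorem gmo_X [Fact p.Prime] (hmn : n' < m') (D v' : ℕ) {n i j : ℕ} (hj : j < n) (h : i * n + j < v') :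
    (gmo v hmn D v' n).X ⟨i * n + j, h⟩ = XX v i j := by
  show XX v ((i * n + j) / n) ((i * n + j) % n) = XX v i j
  have h1 : (i * n + j) / n = i := by
    rw [mul_comm, Nat.mul_add_div (by omega), Nat.div_eq_of_lt hj, add_zero]
  have h2 : (i * n + j) % n = j := by
    rw [mul_comm, Nat.mul_add_mod, Nat.mod_eq_of_lt hj]
  rw [h1, h2]

end

theorem lt_mn {m n i j : ℕ} (hi : i < m) (hj : j < n) : i * n + j < m * n := by
  calc i * n + j < i * n + n := by omega
    _ = (i + 1) * n := by ring
    _ ≤ m * n := Nat.mul_le_mul_right _ hi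

theorem gmo_Cl [Fact p.Prime] {m' n' m n : ℕ} (v : VOps p m' n') (hmn : n' < m') (D : ℕ) (hn : n' ≤ n) (hm : m + n' = n + m') :
    ∀ C ∈ ofphp m n, (gmo v hmn D (m * n) n).Cl C := by
  intro C hC
  unfold ofphp php at hC
  simp only [List.mem_append, List.mem_map, List.mem_flatMap, List.mem_range] at hC
  rcases hC with (⟨i, hi, rfl⟩ | ⟨j, hj, i', hi', i, hi, rfl⟩) | (⟨j, hj, rfl⟩ | ⟨i, hi, j', hj', j, hj, rfl⟩)
  · refine Or.inr ⟨List.ofFn fun j : Fin n => (⟨i * n + j.1, lt_mn hi j.2⟩ : Fin (m * n)), ?_, ?_, fun x => ?_⟩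
    · rw [List.nodup_ofFn]
      intro a b hab
      have h1 := congrArg Fin.val hab
      simp only at h1
      exact Fin.ext (by omega)
    · rw [List.map_ofFn]
      refine List.ext_getElem (by simp) fun k h1 h2 => ?_
      simp
    · have hJ : (gmo v hmn D (m * n) n).J x = v.J x := rfl
      rw [List.map_ofFn, List.sum_ofFn, hJ, ← XX_row v hn (by omega : i + n' < n + m') x, Finset.sum_range]
      refine Finset.sum_congr rfl fun j _ => ?_
      show (gmo v hmn D (m * n) n).X _ x = _
      rw [gmo_X v hmn D (m * n) j.2 (lt_mn hi j.2)]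
  · refine Or.inl ⟨⟨i * n + j, lt_mn (by omega) hj⟩, ⟨i' * n + j, lt_mn hi' hj⟩, rfl, fun x => ?_⟩
    rw [gmo_X v hmn D (m * n) hj, gmo_X v hmn D (m * n) hj]
    exact XX_pcol v (by omega) x
  · refine Or.inr ⟨List.ofFn fun i : Fin m => (⟨i.1 * n + j, lt_mn i.2 hj⟩ : Fin (m * n)), ?_, ?_, fun x => ?_⟩
    · rw [List.nodup_ofFn]
      intro a b hab
      have h1 := congrArg Fin.val hab
      simp only at h1
      have h2 : a.1 * n = b.1 * n := by omega
      exact Fin.ext (Nat.eq_of_mul_eq_mul_right (by omega : 0 < n) h2)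
    · rw [List.map_ofFn]
      refine List.ext_getElem (by simp) fun k h1 h2 => ?_
      simp
    · have hJ : (gmo v hmn D (m * n) n).J x = v.J x := rfl
      rw [List.map_ofFn, List.sum_ofFn, hJ, ← XX_col v hn hm hj x, Finset.sum_range]
      refine Finset.sum_congr rfl fun i _ => ?_
      show (gmo v hmn D (m * n) n).X _ x = _
      rw [gmo_X v hmn D (m * n) hj (lt_mn i.2 hj)]
  · refine Or.inl ⟨⟨i * n + j, lt_mn hi (by omega)⟩, ⟨i * n + j', lt_mn hi hj'⟩, rfl, fun x => ?_⟩
    rw [gmo_X v hmn D (m * n) (by omega : j < n), gmo_X v hmn D (m * n) hj']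
    exact XX_prow v (by omega) x

/-- The operator spaces of a module all of whose operators are `J`, `0` or among the `G (some c)`, `c` in a finite type. -/
theorem op_dim {K E : Type} [Field K] [AddCommGroup E] [Module K E] [FiniteDimensional K E] {n : ℕ} (g : Gm K E n) {ι : Type}
    [Fintype ι] (G : ι → E →ₗ[K] E) (hJ : ∃ c, g.J = G c) (hX : ∀ i, g.X i = 0 ∨ ∃ c, g.X i = G c) (a : ℕ) :
    Module.finrank K (g.Op a) ≤ Fintype.card ι ^ a := by
  classical
  have key : ∀ l : List (E →ₗ[K] E), (∀ P ∈ l, P = 0 ∨ ∃ c, P = G c) → l.prod = 0 ∨ ∃ w : Fin l.length → ι,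
      l.prod = (List.ofFn fun i => G (w i)).prod := by
    intro l
    induction l with
    | nil =>
      intro _
      exact Or.inr ⟨Fin.elim0, by simp⟩
    | cons P l ih =>
      intro h
      rw [List.prod_cons]
      rcases h P List.mem_cons_self with h1 | ⟨c, h1⟩
      · rw [h1, zero_mul]
        exact Or.inl rfl
      · rcases ih fun Q hQ => h Q (List.mem_cons_of_mem _ hQ) with h2 | ⟨w, h2⟩
        · rw [h2, mul_zero]
          exact Or.inl rfl
        · refine Or.inr ⟨Fin.cons c w, ?_⟩
          have h3 : (List.ofFn fun i : Fin (P :: l).length => G (Fin.cons (α := fun _ => ι) c w i)) =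
              G c :: List.ofFn fun i => G (w i) := by
            show (List.ofFn fun i : Fin (l.length + 1) => G (Fin.cons (α := fun _ => ι) c w i)) = _
            rw [List.ofFn_succ]
            simp
          rw [h3, List.prod_cons, h1, h2]
  have h1 : g.Op a ≤ Submodule.span K (Set.range fun w : Fin a → ι => (List.ofFn fun i => G (w i)).prod) := by
    unfold Gm.Op
    refine Submodule.span_le.2 ?_
    rintro P ⟨S, hS, rfl⟩
    obtain ⟨l, hl⟩ : ∃ l : List (E →ₗ[K] E), l = List.replicate (a - S.card) g.J ++ (S.sort (· ≤ ·)).map g.X := ⟨_, rfl⟩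
    have hlen : l.length = a := by
      rw [hl, List.length_append, List.length_replicate, List.length_map, Finset.length_sort]
      omega
    have hprod : g.J ^ (a - S.card) * g.XS S = l.prod := by
      rw [hl, List.prod_append, List.prod_replicate]
      rfl
    rw [hprod]
    subst hlen
    have hall : ∀ Q ∈ l, Q = 0 ∨ ∃ c, Q = G c := by
      intro Q hQ
      rw [hl, List.mem_append] at hQ
      rcases hQ with hQ | hQ
      · rw [List.eq_of_mem_replicate hQ]
        exact Or.inr hJ
      · obtain ⟨i, _, rfl⟩ := List.mem_map.1 hQ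
        exact hX i
    rcases key l hall with h2 | ⟨w, h2⟩
    · rw [h2]
      exact Submodule.zero_mem _
    · rw [h2]
      exact Submodule.subset_span ⟨w, rfl⟩
  refine (Submodule.finrank_mono h1).trans ?_
  refine (finrank_range_le_card _).trans ?_
  rw [Fintype.card_fun, Fintype.card_fin]

theorem gmo_op [Fact p.Prime] {m' n' : ℕ} (v : VOps p m' n') (hmn : n' < m') (D v' n a : ℕ) :
    Module.finrank (ZMod p) ((gmo v hmn D v' n).Op a) ≤ (m' * n' + 1) ^ a := by
  have h := op_dim (gmo v hmn D v' n) (ι := Option (Fin m' × Fin n')) (fun c => c.elim v.J v.X) ⟨none, rfl⟩ (fun x => ?_) a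
  · rwa [Fintype.card_option, Fintype.card_prod, Fintype.card_fin, Fintype.card_fin] at h
  · rcases XX_cases v (x.1 / n) (x.1 % n) with ⟨e, h⟩ | h | h
    · exact Or.inr ⟨some e, h⟩
    · exact Or.inr ⟨none, h⟩
    · exact Or.inl h

end PPh
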