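import Pool.Agent.H94.PP.Vm

/-!
helper94 (project MP_28250c_PP, block V): `outM`, the graded modules from the outputs of the blocks A, B, E.
-/

set_option autoImplicit false
open Finset

namespace PPh

open ACpFrege

theorem blt_le94 {N : ℕ} {w : Fin N → ℕ} (h : Ballot w) : ∀ (i : ℕ) (u : Fin N), w u = i → i ≤ u.1 := by
  intro i
  induction i with
  | zero => exact fun u _ => Nat.zero_le _
  | succ i ih =>
    intro u hu
    have h1 := h (u.1 + 1) i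
    have h2 : 0 < (univ.filter fun u' : Fin N => (u' : ℕ) < u.1 + 1 ∧ w u' = i + 1).card :=
      Finset.card_pos.2 ⟨u, Finset.mem_filter.2 ⟨Finset.mem_univ _, Nat.lt_succ_self _, hu⟩⟩
    obtain ⟨u', hu'⟩ := Finset.card_pos.1 (lt_of_lt_of_le h2 h1)
    rw [Finset.mem_filter] at hu'
    have h3 := ih u' hu'.2.2
    have h4 : u' ≠ u := by
      rintro rfl
      omega
    have h5 : u'.1 ≠ u.1 := fun h' => h4 (Fin.ext h')
    omega

theorem bset_fin94 (m n : ℕ) (R : ℕ → ℕ → Prop) : (bset m n R).Finite := by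
  have h1 : ∀ (k N : ℕ), {w : Fin k → ℕ | ∀ u, w u ≤ N}.Finite := by
    intro k N
    refine (Set.finite_Icc (0 : Fin k → ℕ) (fun _ => N)).subset fun w hw => ?_
    exact ⟨fun u => Nat.zero_le _, hw⟩
  refine ((h1 m m).prod (h1 n n)).subset ?_
  rintro ⟨P, Q⟩ ⟨hP, hQ, _, _⟩
  refine Set.mem_prod.2 ⟨fun u => ?_, fun u => ?_⟩
  · exact (blt_le94 hP _ u rfl).trans u.2.le
  · exact (blt_le94 hQ _ u rfl).trans u.2.le

theorem cnt_mono94 {m n : ℕ} {R R' : ℕ → ℕ → Prop} (h : ∀ u w, R u w → R' u w) : cnt m n R ≤ cnt m n R' := by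
  refine Set.ncard_le_ncard ?_ (bset_fin94 m n R')
  rintro PQ ⟨h1, h2, h3, h4⟩
  exact ⟨h1, h2, h3, h _ _ h4⟩

theorem cnt_le_add3 {m n : ℕ} {R R1 R2 R3 : ℕ → ℕ → Prop} (h : ∀ u w, R u w → R1 u w ∨ R2 u w ∨ R3 u w) :
    cnt m n R ≤ cnt m n R1 + (cnt m n R2 + cnt m n R3) := by
  have h1 : bset m n R ⊆ bset m n R1 ∪ (bset m n R2 ∪ bset m n R3) := by
    rintro PQ ⟨h1, h2, h3, h4⟩
    rcases h _ _ h4 with h5 | h5 | h5
    · exact Or.inl ⟨h1, h2, h3, h5⟩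
    · exact Or.inr (Or.inl ⟨h1, h2, h3, h5⟩)
    · exact Or.inr (Or.inr ⟨h1, h2, h3, h5⟩)
  have h2 : (bset m n R1 ∪ (bset m n R2 ∪ bset m n R3)).Finite :=
    (bset_fin94 m n R1).union ((bset_fin94 m n R2).union (bset_fin94 m n R3))
  refine (Set.ncard_le_ncard h1 h2).trans ?_
  refine (Set.ncard_union_le _ _).trans ?_
  exact Nat.add_le_add_left (Set.ncard_union_le _ _) _

theorem num_big {p l n' L : ℕ} (hp : 2 ≤ p) (hl : 2 * p + 4 ≤ l) (hn' : (2 * p + 4) ^ (5 * l) ≤ 2 * n') (hL : L ≤ 2 ^ (l / 2)) :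
    16 * L ^ 2 * ((2 * ((2 * p + 4) ^ (5 * l)) ^ 2) ^ L) ^ 2 < 2 ^ (n' / 2) := by
  have hl1 : 1 ≤ l := by omega
  have h1 : (2 * p + 4) ^ (5 * l) ≤ 2 ^ (5 * l * l) := by
    calc (2 * p + 4) ^ (5 * l) ≤ (2 ^ l) ^ (5 * l) := Nat.pow_le_pow_left (hl.trans Nat.lt_two_pow_self.le) _
      _ = 2 ^ (5 * l * l) := by
        rw [← pow_mul]
        ring_nf
  have h2 : 2 ^ (15 * l) ≤ (2 * p + 4) ^ (5 * l) := by
    calc 2 ^ (15 * l) = (2 ^ 3) ^ (5 * l) := by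
          rw [← pow_mul]
          ring_nf
      _ ≤ (2 * p + 4) ^ (5 * l) := Nat.pow_le_pow_left (by omega) _
  have h3 : 2 ^ (15 * l - 2) ≤ n' / 2 := by
    have h4 : 2 ^ (15 * l) = 4 * 2 ^ (15 * l - 2) := by
      have h5 : 15 * l = 15 * l - 2 + 2 := by omega
      conv_lhs => rw [h5, pow_add]
      ring
    omega
  have hLl : L ≤ 2 ^ l := hL.trans (Nat.pow_le_pow_right (by omega) (Nat.div_le_self _ _))
  have h5 : (2 * ((2 * p + 4) ^ (5 * l)) ^ 2) ^ L ≤ 2 ^ ((1 + 10 * l * l) * 2 ^ l) := by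
    have h6 : 2 * ((2 * p + 4) ^ (5 * l)) ^ 2 ≤ 2 ^ (1 + 10 * l * l) := by
      calc 2 * ((2 * p + 4) ^ (5 * l)) ^ 2 ≤ 2 * (2 ^ (5 * l * l)) ^ 2 :=
            Nat.mul_le_mul_left _ (Nat.pow_le_pow_left h1 _)
        _ = 2 ^ (1 + 10 * l * l) := by
          rw [← pow_mul, pow_add, pow_one]
          ring_nf
    calc (2 * ((2 * p + 4) ^ (5 * l)) ^ 2) ^ L ≤ (2 ^ (1 + 10 * l * l)) ^ L := Nat.pow_le_pow_left h6 _
      _ ≤ (2 ^ (1 + 10 * l * l)) ^ (2 ^ l) := Nat.pow_le_pow_right (by positivity) hLl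
      _ = 2 ^ ((1 + 10 * l * l) * 2 ^ l) := by rw [← pow_mul]
  have h7 : 16 * L ^ 2 * ((2 * ((2 * p + 4) ^ (5 * l)) ^ 2) ^ L) ^ 2 ≤
      2 ^ (4 + 2 * l + (1 + 10 * l * l) * 2 ^ l * 2) := by
    calc 16 * L ^ 2 * ((2 * ((2 * p + 4) ^ (5 * l)) ^ 2) ^ L) ^ 2 ≤
        16 * (2 ^ l) ^ 2 * (2 ^ ((1 + 10 * l * l) * 2 ^ l)) ^ 2 := by gcongr
      _ = 2 ^ (4 + 2 * l + (1 + 10 * l * l) * 2 ^ l * 2) := by
        rw [← pow_mul, ← pow_mul, pow_add, pow_add]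
        ring_nf
  refine lt_of_le_of_lt h7 (Nat.pow_lt_pow_right (by omega) (lt_of_lt_of_le ?_ h3))
  have h8 : l < 2 ^ l := Nat.lt_two_pow_self
  have h9 : l * l ≤ 2 ^ l * 2 ^ l := Nat.mul_le_mul h8.le h8.le
  have h10 : 2 ^ (3 * l + 6) = 64 * (2 ^ l * 2 ^ l * 2 ^ l) := by
    rw [pow_add, show 3 * l = l + l + l by ring, pow_add, pow_add]
    ring
  have h11 : 2 ^ (3 * l + 6) ≤ 2 ^ (15 * l - 2) := Nat.pow_le_pow_right (by omega) (by omega)
  refine lt_of_lt_of_le ?_ h11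
  rw [h10]
  have h12 : 1 ≤ 2 ^ l := Nat.one_le_two_pow
  obtain ⟨x, hx⟩ : ∃ x, x = 2 ^ l := ⟨_, rfl⟩
  rw [← hx] at h8 h9 h12 ⊢
  have h13 : 2 ≤ x := by omega
  nlinarith [Nat.mul_le_mul h9 (le_refl x), Nat.mul_le_mul h12 h12, Nat.mul_le_mul h13 h13,
    Nat.mul_le_mul (Nat.mul_le_mul h12 h12) (le_refl x)]

theorem outM (p : ℕ) [Fact p.Prime] (hA : ∀ l, OutA p l) (hB : ∀ l, OutB p l) (hE : OutE p) : OutM p := by
  obtain ⟨l₀, hE⟩ := hE
  have hp : 2 ≤ p := (Fact.out : p.Prime).two_le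
  refine ⟨max l₀ (2 * p + 4), fun l hl n L hn hL => ?_⟩
  obtain ⟨n', r, h1, h2, h3, h4, B, hB0, hB1, hB2, hB3⟩ := hE l ((le_max_left _ _).trans hl)
  have hl' : 2 * p + 4 ≤ l := (le_max_right _ _).trans hl
  have hs : 0 < p ^ l := pow_pos (by omega) _
  have hmn : n' < n' + p ^ l := by omega
  obtain ⟨v, hv⟩ : ∃ v, v = vops p (n' + p ^ l) n' hmn := ⟨_, rfl⟩
  have hbig := num_big hp hl' h1 hL
  -- the dimension of `M 0`
  have hJ : ∀ j, j ≤ L → cnt (n' + p ^ l) n' (fun u w => r - j ≤ u ∧ u + 2 ≤ r - j + 2 ^ l ∧ w + (p + 2) ^ l ≤ u) ≤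
      Module.finrank (ZMod p) ((Md p (n' + p ^ l) n' (n' - r + j)).map v.J) := by
    intro j hj
    have h5 := hB l n' (n' - r + j) (by omega) v
    have h6 : n' - (n' - r + j) = r - j := by omega
    rw [h6] at h5
    exact h5
  have hU : ∀ j, j ≤ L → Module.finrank (ZMod p) (Md p (n' + p ^ l) n' (n' - r + j)) ≤
      cnt (n' + p ^ l) n' fun u _ => r - j ≤ u ∧ u < r - j + p ^ l := by
    intro j hj
    have h5 := hA l n' (n' - r + j) (by omega)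
    have h6 : n' - (n' - r + j) = r - j := by omega
    rw [h6] at h5
    exact h5
  have h0 : B ≤ Module.finrank (ZMod p) (Md p (n' + p ^ l) n' (n' - r + 0)) := by
    refine le_trans ?_ (Submodule.finrank_map_le v.J _)
    rw [hB0]
    exact hJ 0 (Nat.zero_le _)
  refine ⟨VE p (n' + p ^ l) n', inferInstance, inferInstance, inferInstance,
    gmo v hmn (n' - r) ((n + p ^ l) * n) n, ?_, ?_, ?_, ?_, ?_⟩
  · exact lt_of_lt_of_le (lt_of_lt_of_le hbig hB1) h0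
  · intro j hj
    refine (hU j hj).trans ?_
    exact (hB2 j (hj.trans hL)).trans (Nat.mul_le_mul_left _ h0)
  · intro j hj
    refine le_trans ?_ h0
    refine le_trans (Nat.mul_le_mul_left _ ?_) (hB3 j (lt_of_lt_of_le hj hL))
    have h5 := rank_ker v.J (Md p (n' + p ^ l) n' (n' - r + j))
    have h6 := hU j hj.le
    have h7 := hJ j hj.le
    have h8 : cnt (n' + p ^ l) n' (fun u _ => r - j ≤ u ∧ u < r - j + p ^ l) ≤
        cnt (n' + p ^ l) n' (fun u w => r - j ≤ u ∧ u + 2 ≤ r - j + 2 ^ l ∧ w + (p + 2) ^ l ≤ u) +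
          (cnt (n' + p ^ l) n' (fun u _ => r + 2 ^ l ≤ u + j + 1) +
            cnt (n' + p ^ l) n' (fun u w => r ≤ u + j ∧ u < w + (p + 2) ^ l)) := by
      refine cnt_le_add3 fun u w h => ?_
      have h9 : j ≤ r := by omega
      omega
    show Module.finrank (ZMod p) ↥(Md p (n' + p ^ l) n' (n' - r + j) ⊓ LinearMap.ker v.J) ≤ _
    omega
  · intro a ha
    refine (gmo_op v hmn _ _ n a).trans ?_
    have h5 : p ^ l + 1 ≤ (2 * p + 4) ^ (5 * l) := by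
      have h6 : p ^ l < (2 * p + 4) ^ l := Nat.pow_lt_pow_left (by omega) (by omega)
      exact h6.trans_le (Nat.pow_le_pow_right (by omega) (by omega))
    obtain ⟨N, hN⟩ : ∃ N, N = (2 * p + 4) ^ (5 * l) := ⟨_, rfl⟩
    rw [← hN] at h5 h2 ⊢
    have h6 : (n' + p ^ l) * n' + 1 ≤ 2 * N ^ 2 := by
      have h7 : (n' + p ^ l) * n' ≤ (N + (N - 1)) * N := Nat.mul_le_mul (by omega) h2
      have h8 : (N + (N - 1)) * N + N = 2 * N ^ 2 := by
        have h9 : N + (N - 1) + 1 = 2 * N := by omega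
        calc (N + (N - 1)) * N + N = (N + (N - 1) + 1) * N := by ring
          _ = 2 * N ^ 2 := by
            rw [h9]
            ring
      omega
    exact (Nat.pow_le_pow_left h6 _).trans (Nat.pow_le_pow_right (by omega) ha)
  · exact gmo_Cl v hmn (n' - r) (h2.trans hn) (by omega)

end PPh
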